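import Mathlib

open Metric Set
open scoped BoundedContinuousFunction

namespace Pool.Agent.Results.MP_25d2c4_an.SymASQ

/-- Almost square spaces. -/
def ASQ (X : Type*) [NormedAddCommGroup X] : Prop :=
  ∀ (k : ℕ) (x : Fin k → X), (∀ i, ‖x i‖ = 1) → ∀ ε : ℝ, 0 < ε →
    ∃ y : X, ‖y‖ = 1 ∧ ∀ i, ‖x i + y‖ ≤ 1 + ε

/-- The N-th tensor power of x, as the function taking a functional f of the dual unit ball to
the N-th power of f x. -/
noncomputable def pw (𝕜 : Type*) [RCLike 𝕜] {X : Type*} [NormedAddCommGroup X] [NormedSpace 𝕜 X]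
    (N : ℕ) (x : X) : closedBall (0 : StrongDual 𝕜 X) 1 →ᵇ 𝕜 :=
  BoundedContinuousFunction.ofNormedAddCommGroup (fun f => f.1 x ^ N) (by fun_prop) (‖x‖ ^ N)
    fun f => by
      have := f.1.le_of_opNorm_le (mem_closedBall_zero_iff.mp f.2) x
      rw [one_mul] at this
      rw [norm_pow]
      gcongr

/-- The completed symmetric injective tensor power: the closed span of the tensor powers in the
supremum norm over the dual unit ball. -/
noncomputable def SymInj (𝕜 : Type*) [RCLike 𝕜] (X : Type*) [NormedAddCommGroup X]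
    [NormedSpace 𝕜 X] (N : ℕ) : Submodule 𝕜 (closedBall (0 : StrongDual 𝕜 X) 1 →ᵇ 𝕜) :=
  (Submodule.span 𝕜 (range (pw 𝕜 (X := X) N))).topologicalClosure

/-- Symmetric injective tensor powers of an almost square space are almost square. -/
theorem result (𝕜 : Type*) [RCLike 𝕜] (X : Type*) [NormedAddCommGroup X] [NormedSpace 𝕜 X]
    (hX : ASQ X) (N : ℕ) (hN : 1 ≤ N) : ASQ (SymInj 𝕜 X N) := by
  classical
  intro k u hu ε hε
  set δ := ε / 4 with hδ
  have d0 : 0 < δ := by positivity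
  have ex : ∀ i, ∃ A : Set X, A.Finite ∧ ∃ v ∈ Submodule.span 𝕜 (pw 𝕜 N '' A),
      ‖(u i).1 - v‖ < δ := fun i => by
    obtain ⟨v, hv, h⟩ := Metric.mem_closure_iff.mp (u i).2 δ d0
    obtain ⟨T, hT, hv'⟩ := Submodule.mem_span_finite_of_mem_span hv
    rw [← image_univ] at hT
    obtain ⟨A, -, fA, e⟩ := Set.Finite.exists_subset_finite_image_eq T.finite_toSet hT
    exact ⟨A, fA, v, by rwa [e], by rwa [← dist_eq_norm]⟩
  choose A fA v hv huv using ex
  let E := Submodule.span 𝕜 (⋃ i, A i)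
  have : FiniteDimensional 𝕜 E := FiniteDimensional.span_of_finite 𝕜 (finite_iUnion fA)
  have : ProperSpace E := FiniteDimensional.proper_rclike 𝕜 E
  obtain ⟨t, ts, tf, tc⟩ := finite_cover_balls_of_compact (isCompact_sphere (0 : E) 1) d0
  obtain ⟨m, w, -, hw⟩ := tf.fin_param
  obtain ⟨y, ny, hy⟩ := hX m (fun j => (w j : X))
    (fun j => mem_sphere_zero_iff_norm.mp (ts (hw ▸ mem_range_self j))) δ d0
  have hy' : ∀ x : E, ‖x‖ = 1 → ‖(x : X) + y‖ ≤ 1 + 2 * δ := fun x hx => by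
    obtain ⟨z, hz, h⟩ := mem_iUnion₂.mp (tc (mem_sphere_zero_iff_norm.mpr hx))
    rw [← hw] at hz
    obtain ⟨j, rfl⟩ := hz
    have h1 : ‖(x : X) - w j‖ < δ := by rwa [mem_ball, dist_eq_norm] at h
    have h2 := norm_add_le ((x : X) - w j) (w j + y)
    rw [← add_assoc, sub_add_cancel] at h2
    linarith [hy j]
  have pe : ∀ (x : X) f, pw 𝕜 N x f = f.1 x ^ N := fun _ _ => rfl
  have le1 : ∀ (f : closedBall (0 : StrongDual 𝕜 X) 1) x, ‖f.1 x‖ ≤ ‖x‖ := fun f x => by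
    simpa using f.1.le_of_opNorm_le (mem_closedBall_zero_iff.mp f.2) x
  have pl : ∀ a : ℝ, 0 ≤ a → a ≤ 1 → a ^ N ≤ a := fun a h0 h1 =>
    pow_le_of_le_one h0 h1 (by omega)
  refine ⟨⟨pw 𝕜 N y, Submodule.le_topologicalClosure _ (Submodule.subset_span ⟨y, rfl⟩)⟩,
    le_antisymm ?_ ?_, fun i => ?_⟩
  · refine (BoundedContinuousFunction.norm_le zero_le_one).mpr fun f => ?_
    show ‖f.1 y ^ N‖ ≤ 1
    rw [norm_pow]
    exact pow_le_one₀ (norm_nonneg _) ((le1 f y).trans ny.le)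
  · obtain ⟨g, g1, g2⟩ := exists_dual_vector 𝕜 y (by simp [ny])
    have := (pw 𝕜 N y).norm_coe_le_norm ⟨g, mem_closedBall_zero_iff.mpr g1.le⟩
    simpa [pe, g2, ny] using this
  refine (BoundedContinuousFunction.norm_le (by positivity)).mpr fun f => ?_
  let r : StrongDual 𝕜 E := f.1.comp E.subtypeL
  have r1 : ‖r‖ ≤ 1 := r.opNorm_le_bound zero_le_one fun x => by simpa [r] using le1 f x
  have b1 : ‖f.1 y‖ ≤ 1 := (le1 f y).trans ny.le
  have ab : ‖r‖ ≤ 1 + 2 * δ - ‖f.1 y‖ := by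
    refine ContinuousLinearMap.opNorm_le_of_unit_norm (by linarith) fun x hx => ?_
    obtain ⟨c1, n1, e1⟩ := RCLike.exists_norm_eq_mul_self (r x)
    obtain ⟨c2, n2, e2⟩ := RCLike.exists_norm_mul_eq_self (f.1 y)
    have h1 := (le1 f _).trans (hy' ((c2 * c1) • x) (by simp [norm_smul, n1, n2, hx]))
    have h2 : f.1 ((((c2 * c1) • x : E) : X) + y) = c2 * ((‖r x‖ + ‖f.1 y‖ : ℝ) : 𝕜) := by
      rw [RCLike.ofReal_add, mul_add, e2, e1]; simp [r, mul_assoc]
    rw [h2, norm_mul, n2, one_mul, RCLike.norm_ofReal, abs_of_nonneg (by positivity)] at h1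
    linarith
  obtain ⟨g, g1, g2⟩ : ∃ g : StrongDual 𝕜 X, ‖g‖ ≤ 1 ∧ ∀ x : E, f.1 x = (‖r‖ : ℝ) * g x := by
    rcases eq_or_ne r 0 with h | h
    · exact ⟨0, by simp, fun x => by simpa [r] using DFunLike.congr_fun h x⟩
    obtain ⟨g, e, n⟩ := exists_extension_norm_eq E r
    have n0 : ‖r‖ ≠ 0 := norm_ne_zero_iff.mpr h
    refine ⟨((‖r‖ : ℝ) : 𝕜)⁻¹ • g, by simp [norm_smul, n, n0], fun x => ?_⟩
    have : ((‖r‖ : ℝ) : 𝕜) ≠ 0 := by exact_mod_cast n0
    rw [smul_apply, smul_eq_mul, mul_inv_cancel_left₀ this, e]; rfl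
  have key : ∀ z ∈ Submodule.span 𝕜 (pw 𝕜 N '' A i),
      z f = ((‖r‖ : ℝ) : 𝕜) ^ N * z ⟨g, mem_closedBall_zero_iff.mpr g1⟩ := by
    intro z hz
    induction hz using Submodule.span_induction with
    | mem z h =>
      obtain ⟨x, hx, rfl⟩ := h
      rw [pe, pe, g2 ⟨x, Submodule.subset_span (mem_iUnion.mpr ⟨i, hx⟩)⟩, mul_pow]
    | zero => simp
    | add _ _ _ _ a b => simp [a, b, mul_add]
    | smul c _ _ b => simp [b, mul_left_comm]
  have nv : ‖v i‖ ≤ 1 + δ := by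
    have := norm_sub_norm_le (v i) (u i).1
    rw [norm_sub_rev, show ‖(u i).1‖ = 1 from hu i] at this
    linarith [huv i]
  have h1 : ‖v i f‖ ≤ ‖r‖ * (1 + δ) := by
    rw [key _ (hv i), norm_mul, norm_pow, RCLike.norm_ofReal, abs_norm]
    exact mul_le_mul (pl _ (norm_nonneg _) r1) (((v i).norm_coe_le_norm _).trans nv)
      (norm_nonneg _) (norm_nonneg _)
  have h2 := (((u i).1 - v i).norm_coe_le_norm f).trans (huv i).le
  have h3 : ((u i).1 + pw 𝕜 N y) f = ((u i).1 - v i) f + v i f + f.1 y ^ N := by simp [pe]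
  show ‖((u i).1 + pw 𝕜 N y) f‖ ≤ _
  rw [h3]
  have h4 := norm_add₃_le (a := ((u i).1 - v i) f) (b := v i f) (c := f.1 y ^ N)
  rw [norm_pow] at h4
  nlinarith [pl _ (norm_nonneg _) b1]

end Pool.Agent.Results.MP_25d2c4_an.SymASQ
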